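import Mathlib

set_option autoImplicit false

/-!
# WNeg/Root: a primitive third root of unity in the field with four elements (owner helper94)
-/

namespace Pool.Agent.WNeg

/-- the field with four elements contains a primitive third root of unity -/
theorem exists_w : ∃ w : GaloisField 2 2, w * w = w + 1 := by
  classical
  have : Fintype (GaloisField 2 2) := Fintype.ofFinite _
  have hc : Fintype.card (GaloisField 2 2) = 4 := by
    rw [← Nat.card_eq_fintype_card, GaloisField.card 2 2 two_ne_zero]
    norm_num
  obtain ⟨w, hw⟩ : ∃ w : GaloisField 2 2, w ∉ ({0, 1} : Finset (GaloisField 2 2)) := by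
    by_contra h
    push Not at h
    have h1 : (Finset.univ : Finset (GaloisField 2 2)) ⊆ {0, 1} := fun x _ => h x
    have h2 := Finset.card_le_card h1
    have h3 : ({0, 1} : Finset (GaloisField 2 2)).card ≤ 2 := Finset.card_le_two
    rw [Finset.card_univ, hc] at h2
    omega
  simp only [Finset.mem_insert, Finset.mem_singleton, not_or] at hw
  refine ⟨w, ?_⟩
  have h4 := FiniteField.pow_card w
  rw [hc] at h4
  have h5 : w * (w - 1) * (w * w + w + 1) = 0 := by linear_combination h4
  have h6 : w * w + w + 1 = 0 := by
    rcases mul_eq_zero.1 h5 with h | h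
    · rcases mul_eq_zero.1 h with h | h
      · exact absurd h hw.1
      · exact absurd (sub_eq_zero.1 h) hw.2
    · exact h
  have h7 : w + 1 + (w + 1) = 0 := CharTwo.add_self_eq_zero _
  linear_combination h6 - h7

end Pool.Agent.WNeg
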