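import Mathlib
import Pool.Agent.H94.ToricDefs

set_option autoImplicit false

/-!
# WNeg/Abs: a criterion for the failure of the strong conjecture of White (owner helper51)

Let `P` be a property of bases which is invariant under symmetric exchanges of complementary pairs. If one complementary pair
has it and another one does not, the symmetric exchange binomials do not generate the toric ideal.
-/

namespace Pool.Agent.WNeg

open MvPolynomial Finset Pool.Agent.H94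

variable {α : Type*} [Fintype α] [DecidableEq α]

private theorem exch_rev {M : Matroid α} {B₁ B₂ B₃ B₄ : Bases M} (h : IsSymmExch M B₁ B₂ B₃ B₄) :
    IsSymmExch M B₃ B₄ B₁ B₂ := by
  obtain ⟨b₁, hb₁, b₂, hb₂, h3, h4⟩ := h
  rw [mem_sdiff] at hb₁ hb₂
  have hne : b₁ ≠ b₂ := fun h => hb₂.2 (h ▸ hb₁.1)
  refine ⟨b₂, ?_, b₁, ?_, ?_, ?_⟩
  · rw [mem_sdiff, h3, h4]
    refine ⟨mem_insert_self _ _, ?_⟩
    simp [hne.symm]
  · rw [mem_sdiff, h3, h4]
    refine ⟨mem_insert_self _ _, ?_⟩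
    simp [hne]
  · rw [h3]
    ext x
    simp only [mem_insert, mem_erase]
    constructor
    · intro hx
      by_cases h : x = b₁
      · exact Or.inl h
      · refine Or.inr ⟨?_, Or.inr ⟨h, hx⟩⟩
        rintro rfl
        exact hb₂.2 hx
    · rintro (rfl | ⟨h1, rfl | ⟨-, h2⟩⟩)
      · exact hb₁.1
      · exact absurd rfl h1
      · exact h2
  · rw [h4]
    ext x
    simp only [mem_insert, mem_erase]
    constructor
    · intro hx
      by_cases h : x = b₂
      · exact Or.inl h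
      · refine Or.inr ⟨?_, Or.inr ⟨h, hx⟩⟩
        rintro rfl
        exact hb₁.2 hx
    · rintro (rfl | ⟨h1, rfl | ⟨-, h2⟩⟩)
      · exact hb₂.1
      · exact absurd rfl h1
      · exact h2

private theorem exch_swap {M : Matroid α} {B₁ B₂ B₃ B₄ : Bases M} (h : IsSymmExch M B₁ B₂ B₃ B₄) :
    IsSymmExch M B₂ B₁ B₄ B₃ := by
  obtain ⟨b₁, hb₁, b₂, hb₂, h3, h4⟩ := h
  exact ⟨b₂, hb₂, b₁, hb₁, h4, h3⟩

private theorem exch_compl {M : Matroid α} {B₁ B₂ B₃ B₄ : Bases M}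
    (h : IsSymmExch M B₁ B₂ B₃ B₄) (h2 : B₂.1 = B₁.1ᶜ) : B₄.1 = B₃.1ᶜ := by
  obtain ⟨b₁, hb₁, b₂, hb₂, h3, h4⟩ := h
  rw [mem_sdiff] at hb₁ hb₂
  have hne : b₁ ≠ b₂ := fun h => hb₂.2 (h ▸ hb₁.1)
  rw [h3, h4, h2]
  ext x
  simp only [mem_insert, mem_erase, mem_compl, not_or, not_and, ne_eq]
  constructor
  · rintro (rfl | ⟨h5, h6⟩)
    · exact ⟨hne, fun h => absurd rfl h⟩
    · exact ⟨h5, fun _ => h6⟩
  · rintro ⟨h5, h6⟩
    by_cases h7 : x = b₁
    · exact Or.inl h7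
    · exact Or.inr ⟨h5, h6 h7⟩

open Classical in
/-- the monomials of the complementary pairs with the property -/
private noncomputable def TT (M : Matroid α) (P : Bases M → Prop) : Finset (Bases M →₀ ℕ) :=
  ((univ : Finset (Bases M × Bases M)).filter (fun p => p.2.1 = p.1.1ᶜ ∧ P p.1)).image
    (fun p => Finsupp.single p.1 1 + Finsupp.single p.2 1)

private theorem mem_TT {M : Matroid α} {P : Bases M → Prop} {m : Bases M →₀ ℕ} :
    m ∈ TT M P ↔ ∃ D D' : Bases M, D'.1 = D.1ᶜ ∧ P D ∧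
      Finsupp.single D 1 + Finsupp.single D' 1 = m := by
  classical
  simp only [TT, Finset.mem_image, Finset.mem_filter, Finset.mem_univ, true_and, Prod.exists]
  constructor
  · rintro ⟨a, b, ⟨h1, h2⟩, h3⟩
    exact ⟨a, b, h1, h2, h3⟩
  · rintro ⟨a, b, h1, h2, h3⟩
    exact ⟨a, b, ⟨h1, h2⟩, h3⟩

private theorem pair_eq {β : Type*} {a b c d : β}
    (h : Finsupp.single a 1 + Finsupp.single b 1 = (Finsupp.single c 1 + Finsupp.single d 1 : β →₀ ℕ)) :
    (a = c ∧ b = d) ∨ (a = d ∧ b = c) := by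
  classical
  have ha := DFunLike.congr_fun h a
  have hb := DFunLike.congr_fun h b
  have hc := DFunLike.congr_fun h c
  simp only [Finsupp.add_apply, Finsupp.single_apply] at ha hb hc
  by_cases h1 : a = c
  · left
    refine ⟨h1, ?_⟩
    subst h1
    have h2 := add_left_cancel h
    exact (Finsupp.single_left_injective one_ne_zero) h2
  · right
    have h2 : a = d := by
      by_contra h3
      simp [Ne.symm h1, Ne.symm h3] at ha
    refine ⟨h2, ?_⟩
    subst h2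
    rw [add_comm (Finsupp.single c 1)] at h
    exact (Finsupp.single_left_injective one_ne_zero) (add_left_cancel h)

private theorem mem_TT_exch {M : Matroid α} {P : Bases M → Prop}
    (hP : ∀ B₁ B₂ B₃ B₄ : Bases M, IsSymmExch M B₁ B₂ B₃ B₄ → B₂.1 = B₁.1ᶜ → P B₁ → P B₃)
    {B₁ B₂ B₃ B₄ : Bases M} (h : IsSymmExch M B₁ B₂ B₃ B₄)
    (hm : Finsupp.single B₁ 1 + Finsupp.single B₂ 1 ∈ TT M P) :
    Finsupp.single B₃ 1 + Finsupp.single B₄ 1 ∈ TT M P := by
  rw [mem_TT] at hm ⊢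
  obtain ⟨D, D', h1, h2, h3⟩ := hm
  rcases pair_eq h3 with ⟨rfl, rfl⟩ | ⟨rfl, rfl⟩
  · exact ⟨B₃, B₄, exch_compl h h1, hP _ _ _ _ h h1 h2, rfl⟩
  · exact ⟨B₄, B₃, exch_compl (exch_swap h) h1, hP _ _ _ _ (exch_swap h) h1 h2, add_comm _ _⟩

private theorem coeff_pair (K : Type*) [Field K] {β : Type*} (g : MvPolynomial β K) (a b : β)
    {m : β →₀ ℕ} (hm : ∃ c d : β, Finsupp.single c 1 + Finsupp.single d 1 = m) :
    coeff m (g * (X a * X b)) =
      @ite _ (Finsupp.single a 1 + Finsupp.single b 1 = m) (Classical.dec _) (coeff 0 g) 0 := by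
  classical
  have h1 : (X a * X b : MvPolynomial β K) =
      monomial (Finsupp.single a 1 + Finsupp.single b 1) 1 := by
    rw [X, X, monomial_mul, one_mul]
  rw [h1, coeff_mul_monomial', mul_one]
  obtain ⟨c, d, rfl⟩ := hm
  by_cases h : Finsupp.single a 1 + Finsupp.single b 1 = (Finsupp.single c 1 + Finsupp.single d 1 : β →₀ ℕ)
  · rw [if_pos h, if_pos h.le, h, tsub_self]
  · rw [if_neg h, if_neg]
    intro hle
    apply h
    refine le_antisymm hle ?_
    have hd : (Finsupp.single a 1 + Finsupp.single b 1 : β →₀ ℕ).degree =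
        (Finsupp.single c 1 + Finsupp.single d 1 : β →₀ ℕ).degree := by
      simp [map_add, Finsupp.degree_single]
    obtain ⟨r, hr⟩ := exists_add_of_le hle
    have h9 := map_add (Finsupp.degree (σ := β) (R := ℕ))
      (Finsupp.single a 1 + Finsupp.single b 1) r
    rw [hr, h9] at hd
    have hr0 : r.degree = 0 := by omega
    rw [Finsupp.degree_eq_zero_iff] at hr0
    rw [hr, hr0, add_zero]

theorem binom_mem (K : Type*) [Field K] (M : Matroid α) (D₀ D₀' D₁ D₁' : Bases M)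
    (h0 : D₀'.1 = D₀.1ᶜ) (h1 : D₁'.1 = D₁.1ᶜ) :
    (X D₀ * X D₀' - X D₁ * X D₁' : MvPolynomial (Bases M) K) ∈ toricIdeal K M := by
  have hcov : ∀ D D' : Bases M, D'.1 = D.1ᶜ → baseHom K M (X D * X D') = ∏ e, X e := by
    intro D D' h
    rw [map_mul, baseHom, aeval_X, aeval_X, h, Finset.prod_mul_prod_compl]
  rw [toricIdeal, RingHom.mem_ker, map_sub]
  show baseHom K M _ - baseHom K M _ = 0
  rw [hcov _ _ h0, hcov _ _ h1, sub_self]

theorem binom_not_mem (K : Type*) [Field K] (M : Matroid α) (P : Bases M → Prop)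
    (hP : ∀ B₁ B₂ B₃ B₄ : Bases M, IsSymmExch M B₁ B₂ B₃ B₄ → B₂.1 = B₁.1ᶜ → P B₁ → P B₃)
    (D₀ D₀' D₁ D₁' : Bases M) (h0 : D₀'.1 = D₀.1ᶜ) (hD0 : P D₀)
    (hD1 : ¬ P D₁) (hD1' : ¬ P D₁') :
    (X D₀ * X D₀' - X D₁ * X D₁' : MvPolynomial (Bases M) K) ∉ Ideal.span (exchBinomials K M) := by
  classical
  intro hf
  set L : MvPolynomial (Bases M) K → K := fun p => ∑ m ∈ TT M P, coeff m p with hL
  have hadd : ∀ p q, L (p + q) = L p + L q := by
    intro p q
    simp only [hL, coeff_add, Finset.sum_add_distrib]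
  have hsub : ∀ p q, L (p - q) = L p - L q := by
    intro p q
    simp only [hL, coeff_sub, Finset.sum_sub_distrib]
  have hpair : ∀ (g : MvPolynomial (Bases M) K) (a b : Bases M), L (g * (X a * X b)) =
      if Finsupp.single a 1 + Finsupp.single b 1 ∈ TT M P then coeff 0 g else 0 := by
    intro g a b
    simp only [hL]
    rw [← Finset.sum_ite_eq (TT M P) (Finsupp.single a 1 + Finsupp.single b 1)
      (fun _ => coeff 0 g)]
    refine Finset.sum_congr rfl fun m hm => ?_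
    obtain ⟨D, D', -, -, h3⟩ := mem_TT.1 hm
    rw [coeff_pair K g a b ⟨D, D', h3⟩]
    congr 1
  have hgen : ∀ f ∈ exchBinomials K M, ∀ g, L (g * f) = 0 := by
    rintro f ⟨B₁, B₂, B₃, B₄, h, rfl⟩ g
    rw [mul_sub, hsub, hpair, hpair]
    have : (Finsupp.single B₁ 1 + Finsupp.single B₂ 1 ∈ TT M P) ↔
        (Finsupp.single B₃ 1 + Finsupp.single B₄ 1 ∈ TT M P) :=
      ⟨mem_TT_exch hP h, mem_TT_exch hP (exch_rev h)⟩
    simp only [this, sub_self]
  have hspan : ∀ f ∈ Ideal.span (exchBinomials K M), ∀ g, L (g * f) = 0 := by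
    intro f hf
    refine Submodule.span_induction (p := fun f _ => ∀ g, L (g * f) = 0) ?_ ?_ ?_ ?_ hf
    · exact fun f hf => hgen f hf
    · intro g
      simp [hL]
    · intro p q _ _ hp hq g
      rw [mul_add, hadd, hp, hq, add_zero]
    · intro a p _ hp g
      rw [smul_eq_mul, ← mul_assoc]
      exact hp _
  have h2 := hspan _ hf 1
  rw [mul_sub, hsub, hpair, hpair, if_pos, if_neg] at h2
  · simp at h2
  · intro h3
    obtain ⟨D, D', h4, h5, h6⟩ := mem_TT.1 h3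
    rcases pair_eq h6 with ⟨rfl, rfl⟩ | ⟨rfl, rfl⟩
    · exact hD1 h5
    · exact hD1' h5
  · exact mem_TT.2 ⟨D₀, D₀', h0, hD0, rfl⟩

theorem not_span (K : Type*) [Field K] (M : Matroid α) (P : Bases M → Prop)
    (hP : ∀ B₁ B₂ B₃ B₄ : Bases M, IsSymmExch M B₁ B₂ B₃ B₄ → B₂.1 = B₁.1ᶜ → P B₁ → P B₃)
    (D₀ D₀' D₁ D₁' : Bases M) (h0 : D₀'.1 = D₀.1ᶜ) (h1 : D₁'.1 = D₁.1ᶜ) (hD0 : P D₀)
    (hD1 : ¬ P D₁) (hD1' : ¬ P D₁') :
    toricIdeal K M ≠ Ideal.span (exchBinomials K M) := by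
  intro heq
  have h := binom_mem K M D₀ D₀' D₁ D₁' h0 h1
  rw [heq] at h
  exact binom_not_mem K M P hP D₀ D₀' D₁ D₁' h0 hD0 hD1 hD1' h

end Pool.Agent.WNeg
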