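import Mathlib

set_option autoImplicit false

/-!
# WNeg/Bits: families of subsets of `Fin 18` as bit vectors of length `2 ^ 18` (owner helper51)

`mask B = ∑ i ∈ B, 2 ^ i`, `tb x B` is the bit of `x` with number `mask B`.
-/

namespace Pool.Agent.WNeg

open Finset

/-- the number of a set -/
def mask (B : Finset (Fin 18)) : ℕ := ∑ i ∈ B, 2 ^ (i : ℕ)

/-- membership of a set in the family coded by `x` -/
def tb (x : ℕ) (B : Finset (Fin 18)) : Bool := x.testBit (mask B)

theorem mask_insert {B : Finset (Fin 18)} {i : Fin 18} (h : i ∉ B) :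
    mask (insert i B) = 2 ^ (i : ℕ) + mask B := sum_insert h

theorem testBit_mask (B : Finset (Fin 18)) (i : Fin 18) : (mask B).testBit i = decide (i ∈ B) := by
  have h1 : mask B = ∑ j ∈ B.map Fin.valEmbedding, 2 ^ j := by
    rw [sum_map]
    rfl
  have h2 := toFinset_bitIndices_sum_two_pow (B.map Fin.valEmbedding)
  rw [← h1] at h2
  have h3 : ((i : ℕ) ∈ (mask B).bitIndices.toFinset) ↔ (i : ℕ) ∈ B.map Fin.valEmbedding := by
    rw [h2]
  rw [List.mem_toFinset, Nat.mem_bitIndices] at h3
  have h4 : (i : ℕ) ∈ B.map Fin.valEmbedding ↔ i ∈ B := by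
    constructor
    · intro h
      obtain ⟨j, hj, hji⟩ := Finset.mem_map.1 h
      have : j = i := Fin.ext hji
      exact this ▸ hj
    · intro h
      exact Finset.mem_map.2 ⟨i, h, rfl⟩
  rw [h4] at h3
  by_cases h : i ∈ B
  · simp [h, h3.2 h]
  · simp only [h, decide_false]
    by_contra h5
    exact h (h3.1 (by simpa using h5))

theorem mask_lt (B : Finset (Fin 18)) : mask B < 2 ^ 18 := by
  have h : mask B ≤ ∑ i : Fin 18, 2 ^ (i : ℕ) :=
    sum_le_sum_of_subset (subset_univ B)
  refine lt_of_le_of_lt h ?_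
  decide +kernel

/-- numbers below `2 ^ n` without the bit `i` -/
def mm : ℕ → ℕ → ℕ
  | 0, _ => 1
  | n + 1, i => if i = n then 2 ^ 2 ^ n - 1 else mm n i ||| (mm n i <<< 2 ^ n)

theorem testBit_mm (n : ℕ) : ∀ i K : ℕ,
    (mm n i).testBit K = (decide (K < 2 ^ n) && !(K.testBit i)) := by
  induction n with
  | zero =>
    intro i K
    rcases Nat.eq_zero_or_pos K with rfl | hK
    · simp [mm]
    · have h1 : ¬ K < 1 := by omega
      have h2 : (1 : ℕ).testBit K = false := by
        rw [Nat.testBit_one_eq_true_iff_self_eq_zero.not.2 ?_ |> Bool.eq_false_iff.2]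
        omega
      simp [mm, h1, h2]
  | succ n ih =>
    intro i K
    rw [mm]
    by_cases hin : i = n
    · subst hin
      rw [if_pos rfl, Nat.testBit_two_pow_sub_one]
      by_cases h1 : K < 2 ^ i
      · have h2 : K < 2 ^ (i + 1) := lt_of_lt_of_le h1 (Nat.pow_le_pow_right (by norm_num) (by omega))
        have h3 : K.testBit i = false := Nat.testBit_lt_two_pow h1
        simp [h1, h2, h3]
      · by_cases h2 : K < 2 ^ (i + 1)
        · have h3 : K.testBit i = true := by
            have h4 : K = 2 ^ i + (K - 2 ^ i) := by omega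
            rw [h4, Nat.testBit_two_pow_add_eq, Nat.testBit_lt_two_pow]
            · rfl
            · rw [pow_succ] at h2
              omega
          simp [h1, h2, h3]
        · simp [h1, h2]
    · rw [if_neg hin, Nat.testBit_or, Nat.testBit_shiftLeft, ih, ih]
      by_cases h1 : K < 2 ^ n
      · have h2 : K < 2 ^ (n + 1) := lt_of_lt_of_le h1 (Nat.pow_le_pow_right (by norm_num) (by omega))
        have h3 : ¬ (K ≥ 2 ^ n) := by omega
        simp [h1, h2, h3]
      · have h3 : K ≥ 2 ^ n := by omega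
        by_cases h2 : K < 2 ^ (n + 1)
        · have h4 : K - 2 ^ n < 2 ^ n := by
            rw [pow_succ] at h2
            omega
          have h5 : (K - 2 ^ n).testBit i = K.testBit i := by
            have h6 : K - 2 ^ n = K % 2 ^ n := by
              rw [Nat.mod_eq_sub_mod h3, Nat.mod_eq_of_lt h4]
            rw [h6, Nat.testBit_mod_two_pow]
            by_cases h7 : i < n
            · simp [h7]
            · have h8 : K < 2 ^ i := lt_of_lt_of_le h2 (Nat.pow_le_pow_right (by norm_num) (by omega))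
              simp [h7, Nat.testBit_lt_two_pow h8]
          simp [h1, h2, h3, h4, h5]
        · have h4 : ¬ (K - 2 ^ n < 2 ^ n) := by
            rw [pow_succ] at h2
            omega
          simp [h1, h2, h4]

theorem tb_mm (i : Fin 18) (B : Finset (Fin 18)) : tb (mm 18 i) B = decide (i ∉ B) := by
  rw [tb, testBit_mm, testBit_mask]
  rw [decide_eq_true (mask_lt B), Bool.true_and]
  simp

theorem tb_and (x y : ℕ) (B : Finset (Fin 18)) : tb (x &&& y) B = (tb x B && tb y B) :=
  Nat.testBit_and _ _ _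

theorem tb_or (x y : ℕ) (B : Finset (Fin 18)) : tb (x ||| y) B = (tb x B || tb y B) :=
  Nat.testBit_or _ _ _

theorem tb_shift (x : ℕ) {B : Finset (Fin 18)} {i : Fin 18} (h : i ∉ B) :
    tb (x >>> 2 ^ (i : ℕ)) B = tb x (insert i B) := by
  rw [tb, tb, mask_insert h, Nat.testBit_shiftRight]

theorem tb_shift2 (x : ℕ) {B : Finset (Fin 18)} {i j : Fin 18} (h : i ∉ B) (h' : j ∉ B)
    (hij : i ≠ j) : tb (x >>> (2 ^ (i : ℕ) + 2 ^ (j : ℕ))) B = tb x (insert i (insert j B)) := by
  rw [tb, tb, mask_insert (by simp [hij, h]), mask_insert h', Nat.testBit_shiftRight]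
  congr 1
  ring

/-- inclusion of bit vectors -/
def bsub (y z : ℕ) : Bool := Nat.beq (y &&& z) y

theorem bsub_tb {y z : ℕ} (h : bsub y z = true) {B : Finset (Fin 18)} (hy : tb y B = true) :
    tb z B = true := by
  have h1 : y &&& z = y := Nat.eq_of_beq_eq_true h
  have h2 := tb_and y z B
  rw [h1, hy, Bool.true_and] at h2
  exact h2.symm

/-- hereditary -/
def chkH (x i : ℕ) : Bool := bsub ((x >>> 2 ^ i) &&& mm 18 i) x

theorem chkH_spec {x : ℕ} {i : Fin 18} (h : chkH x i = true) {B : Finset (Fin 18)} (hi : i ∉ B)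
    (hx : tb x (insert i B) = true) : tb x B = true := by
  refine bsub_tb h ?_
  rw [tb_and, tb_shift x hi, tb_mm, hx]
  simp [hi]

/-- local exchange -/
def chkX (x c a b : ℕ) : Bool :=
  bsub ((((x >>> (2 ^ a + 2 ^ b)) &&& (x >>> 2 ^ c)) &&& mm 18 a) &&& (mm 18 b &&& mm 18 c))
    ((x >>> (2 ^ a + 2 ^ c)) ||| (x >>> (2 ^ b + 2 ^ c)))

theorem chkX_spec {x : ℕ} {c a b : Fin 18} (h : chkX x c a b = true) {K : Finset (Fin 18)}
    (ha : a ∉ K) (hb : b ∉ K) (hc : c ∉ K) (hab : a ≠ b) (hac : a ≠ c) (hbc : b ≠ c)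
    (h1 : tb x (insert a (insert b K)) = true) (h2 : tb x (insert c K) = true) :
    tb x (insert a (insert c K)) = true ∨ tb x (insert b (insert c K)) = true := by
  have h3 := bsub_tb h (B := K) (by
    rw [tb_and, tb_and, tb_and, tb_and, tb_shift2 x ha hb hab, tb_shift x hc, tb_mm, tb_mm, tb_mm,
      h1, h2]
    simp [ha, hb, hc])
  rw [tb_or, tb_shift2 x ha hc hac, tb_shift2 x hb hc hbc] at h3
  simpa using h3

/-- closed under exchanges inside another family -/
def chkC (x s i j : ℕ) : Bool :=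
  bsub (((x >>> 2 ^ i) &&& (s >>> 2 ^ j)) &&& (mm 18 i &&& mm 18 j)) (x >>> 2 ^ j)

theorem chkC_spec {x s : ℕ} {i j : Fin 18} (h : chkC x s i j = true) {K : Finset (Fin 18)}
    (hi : i ∉ K) (hj : j ∉ K) (h1 : tb x (insert i K) = true) (h2 : tb s (insert j K) = true) :
    tb x (insert j K) = true := by
  have h3 := bsub_tb h (B := K) (by
    rw [tb_and, tb_and, tb_and, tb_shift x hi, tb_shift s hj, tb_mm, tb_mm, h1, h2]
    simp [hi, hj])
  rwa [tb_shift x hj] at h3

/-- one step of the reversal -/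
def st (i x : ℕ) : ℕ := ((x &&& mm 18 i) <<< 2 ^ i) ||| ((x >>> 2 ^ i) &&& mm 18 i)

theorem tb_st (i : Fin 18) (x : ℕ) (B : Finset (Fin 18)) :
    tb (st i x) B = if i ∈ B then tb x (B.erase i) else tb x (insert i B) := by
  rw [st, tb_or, tb_and, tb_mm]
  by_cases h : i ∈ B
  · have h1 : mask B = 2 ^ (i : ℕ) + mask (B.erase i) := by
      rw [← mask_insert (notMem_erase i B), insert_erase h]
    have h2 : tb ((x &&& mm 18 i) <<< 2 ^ (i : ℕ)) B = tb x (B.erase i) := by
      rw [tb, Nat.testBit_shiftLeft, h1]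
      have h3 : 2 ^ (i : ℕ) + mask (B.erase i) - 2 ^ (i : ℕ) = mask (B.erase i) := by omega
      have h4 : 2 ^ (i : ℕ) + mask (B.erase i) ≥ 2 ^ (i : ℕ) := by omega
      rw [h3]
      have h5 := tb_and x (mm 18 i) (B.erase i)
      rw [tb_mm] at h5
      simp only [tb] at h5 ⊢
      simp [h4, h5]
    rw [if_pos h, h2]
    simp [h]
  · have h2 : tb ((x &&& mm 18 i) <<< 2 ^ (i : ℕ)) B = false := by
      rw [tb, Nat.testBit_shiftLeft]
      by_cases h3 : mask B ≥ 2 ^ (i : ℕ)
      · have h4 : (mask B - 2 ^ (i : ℕ)).testBit i = true := by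
          by_contra h5
          have h6 : (mask B - 2 ^ (i : ℕ)).testBit i = false := by simpa using h5
          have h7 : mask B = 2 ^ (i : ℕ) + (mask B - 2 ^ (i : ℕ)) := by omega
          have h8 := testBit_mask B i
          rw [h7, Nat.testBit_two_pow_add_eq, h6] at h8
          simp [h] at h8
        rw [Nat.testBit_and, testBit_mm, h4]
        simp
      · simp [h3]
    rw [if_neg h, h2, tb_shift x h]
    simp [h]

/-- reversal -/
def rv : ℕ → ℕ → ℕ
  | 0, x => x
  | n + 1, x => st n (rv n x)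

theorem tb_rv (n : ℕ) (hn : n ≤ 18) (x : ℕ) : ∀ B : Finset (Fin 18),
    tb (rv n x) B = tb x (symmDiff B (univ.filter (fun i : Fin 18 => (i : ℕ) < n))) := by
  induction n with
  | zero =>
    intro B
    have h : (univ.filter (fun i : Fin 18 => (i : ℕ) < 0)) = ∅ := by
      ext j
      simp
    rw [h, rv]
    congr 1
    ext j
    simp [mem_symmDiff]
  | succ n ih =>
    intro B
    have hn' : n < 18 := by omega
    have h1 := tb_st ⟨n, hn'⟩ (rv n x) B
    rw [rv]
    simp only at h1
    rw [h1]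
    have h2 : (univ.filter (fun i : Fin 18 => (i : ℕ) < n + 1)) =
        insert ⟨n, hn'⟩ (univ.filter (fun i : Fin 18 => (i : ℕ) < n)) := by
      ext j
      simp only [mem_filter, mem_univ, true_and, mem_insert, Fin.ext_iff]
      omega
    split_ifs with h
    · rw [ih (by omega)]
      congr 1
      ext j
      by_cases hj : j = ⟨n, hn'⟩
      · subst hj
        simp [mem_symmDiff, h]
      · have hjn : (j : ℕ) ≠ n := fun h => hj (Fin.ext h)
        have e1 : ((j : ℕ) ≤ n) ↔ (j : ℕ) < n := by omega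
        have e2 : (n < (j : ℕ)) ↔ n ≤ (j : ℕ) := by omega
        simp [mem_symmDiff, hj, e1, e2]
    · rw [ih (by omega)]
      congr 1
      ext j
      by_cases hj : j = ⟨n, hn'⟩
      · subst hj
        simp [mem_symmDiff, h]
      · have hjn : (j : ℕ) ≠ n := fun h => hj (Fin.ext h)
        have e1 : ((j : ℕ) ≤ n) ↔ (j : ℕ) < n := by omega
        have e2 : (n < (j : ℕ)) ↔ n ≤ (j : ℕ) := by omega
        simp [mem_symmDiff, hj, e1, e2]

theorem tb_rev (x : ℕ) (B : Finset (Fin 18)) : tb (rv 18 x) B = tb x Bᶜ := by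
  rw [tb_rv 18 le_rfl]
  congr 1
  ext j
  simp [mem_symmDiff]

/-- local exchange gives augmentation -/
theorem aug {α : Type*} [DecidableEq α] (Ind : Finset α → Prop)
    (hsub : ∀ ⦃I J⦄, Ind J → I ⊆ J → Ind I)
    (hloc : ∀ (K : Finset α) (a b c : α), a ∉ K → b ∉ K → c ∉ K → a ≠ b → a ≠ c → b ≠ c →
      Ind (insert a (insert b K)) → Ind (insert c K) →
      Ind (insert a (insert c K)) ∨ Ind (insert b (insert c K))) (n : ℕ) :
    ∀ I J : Finset α, (I \ J).card = n → Ind I → Ind J → I.card < J.card →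
      ∃ e ∈ J, e ∉ I ∧ Ind (insert e I) := by
  induction n with
  | zero =>
    intro I J h hI hJ hc
    have h1 : I ⊆ J := by
      rw [card_eq_zero, sdiff_eq_empty_iff_subset] at h
      exact h
    obtain ⟨e, he, heI⟩ := exists_mem_notMem_of_card_lt_card hc
    exact ⟨e, he, heI, hsub hJ (insert_subset he h1)⟩
  | succ n ih =>
    intro I J h hI hJ hc
    obtain ⟨c, hcm⟩ : (I \ J).Nonempty := card_pos.1 (by omega)
    rw [mem_sdiff] at hcm
    obtain ⟨hcI, hcJ⟩ := hcm
    have e1 : (I.erase c) \ J = (I \ J).erase c := by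
      ext x
      simp only [mem_sdiff, mem_erase]
      tauto
    have e2 : ((I.erase c) \ J).card = n := by
      rw [e1, card_erase_of_mem (mem_sdiff.2 ⟨hcI, hcJ⟩), h]
      rfl
    have hI' : Ind (I.erase c) := hsub hI (erase_subset _ _)
    have hcard : (I.erase c).card + 1 = I.card := card_erase_add_one hcI
    obtain ⟨b, hbJ, hbI, hb⟩ := ih (I.erase c) J e2 hI' hJ (by omega)
    have hbc : b ≠ c := fun h => hcJ (h ▸ hbJ)
    have e3 : (insert b (I.erase c)) \ J = (I.erase c) \ J := by
      rw [insert_sdiff_of_mem _ hbJ]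
    obtain ⟨a, haJ, haI, ha⟩ := ih (insert b (I.erase c)) J (by rw [e3, e2]) hb hJ (by
      rw [card_insert_of_notMem hbI]
      omega)
    have hac : a ≠ c := fun h => hcJ (h ▸ haJ)
    rw [mem_insert, not_or] at haI
    have hk := hloc (I.erase c) a b c haI.2 hbI (notMem_erase _ _) haI.1 hac hbc ha
      (by rw [insert_erase hcI]; exact hI)
    rw [insert_erase hcI] at hk
    rcases hk with hk | hk
    · refine ⟨a, haJ, ?_, hk⟩
      intro h5
      exact haI.2 (mem_erase.2 ⟨hac, h5⟩)
    · refine ⟨b, hbJ, ?_, hk⟩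
      intro h5
      exact hbI (mem_erase.2 ⟨hbc, h5⟩)

end Pool.Agent.WNeg
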