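import Mathlib
import Pool.Agent.WNeg.Abs
import Pool.Agent.WNeg.Data

set_option autoImplicit false

/-!
# WNeg/StrongFails: the strong conjecture of White is false (example of helper92; Lean: helper51)

There is a matroid on `18` elements, of rank `9`, whose toric ideal is not generated by the binomials of symmetric exchanges.
-/

namespace Pool.Agent.WNeg

open Finset MvPolynomial Pool.Agent.H94

theorem allX_true (c : ℕ) (hc : c < 18) : allX c = true := by
  interval_cases c
  · exact allX_0
  · exact allX_1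
  · exact allX_2
  · exact allX_3
  · exact allX_4
  · exact allX_5
  · exact allX_6
  · exact allX_7
  · exact allX_8
  · exact allX_9
  · exact allX_10
  · exact allX_11
  · exact allX_12
  · exact allX_13
  · exact allX_14
  · exact allX_15
  · exact allX_16
  · exact allX_17

theorem chkH_true (i : Fin 18) : chkH IB i = true :=
  List.all_eq_true.1 allH_true i (List.mem_range.2 i.2)

theorem chkX_true {c a b : Fin 18} (hab : a < b) (hac : a ≠ c) (hbc : b ≠ c) :
    chkX IB c a b = true := by
  have h1 := List.all_eq_true.1 (allX_true c c.2) a (List.mem_range.2 a.2)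
  have h2 := List.all_eq_true.1 h1 b (List.mem_range.2 b.2)
  have h3 : Nat.ble (b : ℕ) (a : ℕ) = false := by
    rw [← Bool.not_eq_true, Nat.ble_eq]
    exact not_le.2 hab
  have h4 : Nat.beq (a : ℕ) (c : ℕ) = false := by
    rw [← Bool.not_eq_true, Nat.beq_eq]
    exact fun h => hac (Fin.ext h)
  have h5 : Nat.beq (b : ℕ) (c : ℕ) = false := by
    rw [← Bool.not_eq_true, Nat.beq_eq]
    exact fun h => hbc (Fin.ext h)
  rw [h3, h4, h5] at h2
  simpa using h2

theorem chkC_true {i j : Fin 18} (hij : i ≠ j) : chkC KB SS i j = true := by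
  have h1 := List.all_eq_true.1 allC_true i (List.mem_range.2 i.2)
  have h2 := List.all_eq_true.1 h1 j (List.mem_range.2 j.2)
  have h4 : Nat.beq (i : ℕ) (j : ℕ) = false := by
    rw [← Bool.not_eq_true, Nat.beq_eq]
    exact fun h => hij (Fin.ext h)
  rw [h4] at h2
  simpa using h2

/-- independence -/
def Ind (I : Finset (Fin 18)) : Prop := tb IB I = true

instance : DecidablePred Ind := fun _ => instDecidableEqBool _ _

theorem ind_sub ⦃I J : Finset (Fin 18)⦄ (hJ : Ind J) (h : I ⊆ J) : Ind I := by
  have key : ∀ n : ℕ, ∀ I J : Finset (Fin 18), (J \ I).card = n → I ⊆ J → Ind J → Ind I := by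
    intro n
    induction n with
    | zero =>
      intro I J h1 h2 h3
      rw [card_eq_zero, sdiff_eq_empty_iff_subset] at h1
      rwa [Subset.antisymm h2 h1]
    | succ n ih =>
      intro I J h1 h2 h3
      obtain ⟨e, he⟩ : (J \ I).Nonempty := card_pos.1 (by omega)
      have he' := mem_sdiff.1 he
      refine ih I (J.erase e) ?_ ?_ ?_
      · have : (J.erase e) \ I = (J \ I).erase e := by
          ext x
          simp only [mem_sdiff, mem_erase]
          tauto
        rw [this, card_erase_of_mem he, h1]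
        rfl
      · intro x hx
        exact mem_erase.2 ⟨fun h => he'.2 (h ▸ hx), h2 hx⟩
      · refine chkH_spec (chkH_true e) (notMem_erase e J) ?_
        rw [insert_erase he'.1]
        exact h3
  exact key _ I J rfl h hJ

theorem ind_loc (K : Finset (Fin 18)) (a b c : Fin 18) (ha : a ∉ K) (hb : b ∉ K) (hc : c ∉ K)
    (hab : a ≠ b) (hac : a ≠ c) (hbc : b ≠ c) (h1 : Ind (insert a (insert b K)))
    (h2 : Ind (insert c K)) : Ind (insert a (insert c K)) ∨ Ind (insert b (insert c K)) := by
  rcases lt_or_gt_of_ne hab with h | h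
  · exact chkX_spec (chkX_true h hac hbc) ha hb hc hab hac hbc h1 h2
  · rw [insert_comm] at h1
    exact (chkX_spec (chkX_true h hbc hac) hb ha hc hab.symm hbc hac h1 h2).symm

theorem ind_empty : Ind ∅ := by
  have : tb IB ∅ = true := by
    unfold tb
    decide +kernel
  exact this

/-- the matroid -/
def N : Matroid (Fin 18) :=
  (IndepMatroid.ofFinset Set.univ Ind ind_empty ind_sub
    (fun I J hI hJ h => aug Ind ind_sub ind_loc _ I J rfl hI hJ h)
    (fun _ _ => Set.subset_univ _)).matroid

theorem N_indep (I : Finset (Fin 18)) : N.Indep (I : Set (Fin 18)) ↔ Ind I := by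
  unfold N
  rw [IndepMatroid.matroid_Indep]
  exact IndepMatroid.ofFinset_indep _ _ _ _ _ _

theorem N_base {B : Finset (Fin 18)} (hB : Ind B) (h : ∀ i, i ∉ B → ¬ Ind (insert i B)) :
    N.IsBase (B : Set (Fin 18)) := by
  rw [Matroid.isBase_iff_maximal_indep]
  refine ⟨(N_indep B).2 hB, ?_⟩
  intro J hJ hBJ
  have hJf : J = ((Set.toFinite J).toFinset : Set (Fin 18)) := by simp
  rw [hJf] at hJ hBJ ⊢
  rw [N_indep] at hJ
  intro i hi
  by_contra hiB
  have hiB' : i ∉ B := by exact_mod_cast hiB
  apply h i hiB'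
  refine ind_sub hJ ?_
  refine insert_subset (by exact_mod_cast hi) ?_
  exact_mod_cast hBJ

theorem ind_of_base (B : Bases N) : Ind B.1 := (N_indep B.1).1 B.2.indep

/-- a subset given by a number -/
def ofNum (D : ℕ) : Finset (Fin 18) := univ.filter fun i => D.testBit i = true

theorem base_num {D : ℕ} (h : Ind (ofNum D) ∧ ∀ i : Fin 18, i ∉ ofNum D → ¬ Ind (insert i (ofNum D))) :
    N.IsBase (ofNum D : Set (Fin 18)) := N_base h.1 h.2

theorem d0 : Ind (ofNum 54093) ∧ ∀ i : Fin 18, i ∉ ofNum 54093 → ¬ Ind (insert i (ofNum 54093)) := by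
  decide +kernel

theorem d0' : Ind (ofNum 208050) ∧ ∀ i : Fin 18, i ∉ ofNum 208050 → ¬ Ind (insert i (ofNum 208050)) := by
  decide +kernel

theorem d1 : Ind (ofNum 13007) ∧ ∀ i : Fin 18, i ∉ ofNum 13007 → ¬ Ind (insert i (ofNum 13007)) := by
  decide +kernel

theorem d1' : Ind (ofNum 249136) ∧ ∀ i : Fin 18, i ∉ ofNum 249136 → ¬ Ind (insert i (ofNum 249136)) := by
  decide +kernel

theorem compl0 : ofNum 208050 = (ofNum 54093)ᶜ := by decide +kernel

theorem compl1 : ofNum 249136 = (ofNum 13007)ᶜ := by decide +kernel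

theorem kb0 : tb KB (ofNum 54093) = true := by decide +kernel

theorem kb1 : tb KB (ofNum 13007) = false := by decide +kernel

theorem kb1' : tb KB (ofNum 249136) = false := by decide +kernel

theorem card0 : (ofNum 54093).card = 9 := by decide +kernel

/-- the base `54093` -/
def B0 : Bases N := ⟨_, base_num d0⟩

/-- the base `208050`, complementary to `B0` -/
def B0' : Bases N := ⟨_, base_num d0'⟩

/-- the base `13007` -/
def B1 : Bases N := ⟨_, base_num d1⟩

/-- the base `249136`, complementary to `B1` -/
def B1' : Bases N := ⟨_, base_num d1'⟩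

theorem strong_binom_mem (K : Type*) [Field K] :
    (X B0 * X B0' - X B1 * X B1' : MvPolynomial (Bases N) K) ∈ toricIdeal K N :=
  binom_mem K N B0 B0' B1 B1' compl0 compl1

/-- A quadratic binomial of the toric ideal of `N` which is not in the ideal generated by the binomials of symmetric exchanges. -/
theorem strong_binom_not_mem (K : Type*) [Field K] :
    (X B0 * X B0' - X B1 * X B1' : MvPolynomial (Bases N) K) ∉ Ideal.span (exchBinomials K N) := by
  refine binom_not_mem K N (fun B => tb KB B.1 = true) ?_ B0 B0' B1 B1' compl0 kb0 ?_ ?_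
  · intro B₁ B₂ B₃ B₄ h h2 hK
    obtain ⟨b₁, hb₁, b₂, hb₂, h3, h4⟩ := h
    rw [mem_sdiff] at hb₁ hb₂
    have hne : b₁ ≠ b₂ := fun h => hb₂.2 (h ▸ hb₁.1)
    have e1 : insert b₁ (B₁.1.erase b₁) = B₁.1 := insert_erase hb₁.1
    have e2 : b₂ ∉ B₁.1.erase b₁ := fun h => hb₂.2 (mem_of_mem_erase h)
    have e3 : B₃.1ᶜ = B₄.1 := by
      rw [h3, h4, h2]
      ext x
      simp only [mem_insert, mem_erase, mem_compl, not_or, not_and, ne_eq]
      constructor
      · rintro ⟨h5, h6⟩
        by_cases h7 : x = b₁
        · exact Or.inl h7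
        · exact Or.inr ⟨h5, h6 h7⟩
      · rintro (rfl | ⟨h5, h6⟩)
        · exact ⟨hne, fun h => absurd rfl h⟩
        · exact ⟨h5, fun _ => h6⟩
    have e4 : tb SS B₃.1 = true := by
      rw [SS, tb_and, tb_rev, e3, Bool.and_eq_true]
      exact ⟨ind_of_base B₃, ind_of_base B₄⟩
    show tb KB B₃.1 = true
    rw [h3] at e4 ⊢
    refine chkC_spec (chkC_true hne) (notMem_erase _ _) e2 ?_ e4
    rw [e1]
    exact hK
  · show ¬ (tb KB (ofNum 13007) = true)
    rw [kb1]
    simp
  · show ¬ (tb KB (ofNum 249136) = true)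
    rw [kb1']
    simp

/-- The toric ideal of `N` is not generated by the binomials of symmetric exchanges. -/
theorem strong_fails (K : Type*) [Field K] :
    toricIdeal K N ≠ Ideal.span (exchBinomials K N) := by
  intro heq
  have h := strong_binom_mem K
  rw [heq] at h
  exact strong_binom_not_mem K h

theorem N_rankPos : N.RankPos := by
  have h := base_num d0
  refine ⟨?_⟩
  intro h0
  have h1 := h0.eq_of_subset_isBase h (Set.empty_subset _)
  have h2 := card0
  have h3 : ofNum 54093 = ∅ := by
    rw [← coe_eq_empty]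
    exact h1.symm
  rw [h3] at h2
  simp at h2

instance N_finite : N.Finite := ⟨Set.toFinite _⟩

theorem N_rank : N.eRank = 9 := by
  rw [← (base_num d0).encard_eq_eRank, Set.encard_coe_eq_coe_finsetCard, card0]
  rfl

/-- The strong conjecture of White is false. -/
theorem strong_white_false : ∃ M : Matroid (Fin 18), M.Finite ∧ M.RankPos ∧
    ∀ (K : Type) [Field K], toricIdeal K M ≠ Ideal.span (exchBinomials K M) :=
  ⟨N, N_finite, N_rankPos, fun K _ => strong_fails K⟩

end Pool.Agent.WNeg
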