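import Mathlib
import Pool.Agent.WNeg.Bits

set_option autoImplicit false

/-!
# WNeg/Wedge: exterior products of rows in characteristic two, as bit vectors (owner helper94)
-/

namespace Pool.Agent.WNeg

open Finset

section wedge

variable {k : Type*} [CommRing k]

/-- multiplication by a row -/
def wd (r : Fin 18 → k) (F : Finset (Fin 18) → k) (B : Finset (Fin 18)) : k :=
  ∑ i ∈ B, r i * F (B.erase i)

theorem wd_comm (r s : Fin 18 → k) (F : Finset (Fin 18) → k) :
    wd r (wd s F) = wd s (wd r F) := by
  funext B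
  simp only [wd, Finset.mul_sum]
  rw [Finset.sum_comm' (s := B) (t := fun i => B.erase i) (t' := B) (s' := fun j => B.erase j)]
  · refine Finset.sum_congr rfl fun j _ => Finset.sum_congr rfl fun i _ => ?_
    rw [Finset.erase_right_comm]
    ring
  · intro i j
    simp only [mem_erase]
    tauto

theorem wd_self [CharP k 2] (r : Fin 18 → k) (F : Finset (Fin 18) → k) :
    wd r (wd r F) = 0 := by
  funext B
  simp only [wd, Finset.mul_sum, Pi.zero_apply]
  rw [Finset.sum_sigma']
  refine Finset.sum_involution (fun p _ => ⟨p.2, p.1⟩) ?_ ?_ ?_ ?_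
  · rintro ⟨i, j⟩ h
    simp only [Finset.mem_sigma, mem_erase] at h
    simp only
    rw [Finset.erase_right_comm]
    have : r j * (r i * F ((B.erase i).erase j)) = r i * (r j * F ((B.erase i).erase j)) := by ring
    rw [Finset.erase_right_comm (a := j), this]
    exact CharTwo.add_self_eq_zero _
  · rintro ⟨i, j⟩ h _
    simp only [Finset.mem_sigma, mem_erase] at h
    intro h2
    simp only [Sigma.mk.injEq, heq_eq_eq] at h2
    exact h.2.1 h2.1
  · rintro ⟨i, j⟩ h
    simp only [Finset.mem_sigma, mem_erase] at h ⊢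
    exact ⟨h.2.2, h.2.1.symm, h.1⟩
  · rintro ⟨i, j⟩ h
    rfl

/-- the unit -/
def w1 (B : Finset (Fin 18)) : k := if B = ∅ then 1 else 0

/-- the product of a list of rows -/
def wl (L : List (Fin 18 → k)) : Finset (Fin 18) → k := L.foldr wd w1

theorem wd_zero (r : Fin 18 → k) : wd r (0 : Finset (Fin 18) → k) = 0 := by
  funext B
  simp [wd]

theorem wd_wl [CharP k 2] {L : List (Fin 18 → k)} {r : Fin 18 → k} (h : r ∈ L) :
    wd r (wl L) = 0 := by
  induction L with
  | nil => simp at h
  | cons s L ih =>
    show wd r (wd s (wl L)) = 0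
    rcases List.mem_cons.1 h with rfl | h
    · exact wd_self _ _
    · rw [wd_comm, ih h, wd_zero]

theorem wl_card {L : List (Fin 18 → k)} : ∀ {B : Finset (Fin 18)}, wl L B ≠ 0 →
    B.card = L.length := by
  induction L with
  | nil =>
    intro B h
    by_contra h2
    apply h
    show w1 B = 0
    unfold w1
    rw [if_neg]
    rintro rfl
    simp at h2
  | cons s L ih =>
    intro B h
    change wd s (wl L) B ≠ 0 at h
    unfold wd at h
    obtain ⟨i, hi, h2⟩ := Finset.exists_ne_zero_of_sum_ne_zero h
    have h3 := ih (right_ne_zero_of_mul h2)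
    rw [card_erase_of_mem hi] at h3
    have := card_pos.2 ⟨i, hi⟩
    rw [List.length_cons]
    omega

end wedge

/-! ### bit vectors -/

section bits

variable {k : Type*} [CommRing k]

/-- the element with coordinates `a`, `b` -/
def val (w : k) (a b : Bool) : k := (if a then 1 else 0) + (if b then w else 0)

theorem val_xor [CharP k 2] (w : k) (a b a' b' : Bool) :
    val w (xor a a') (xor b b') = val w a b + val w a' b' := by
  have h1 : (1 : k) + 1 = 0 := CharTwo.add_self_eq_zero _
  have h2 : w + w = 0 := CharTwo.add_self_eq_zero _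
  cases a <;> cases b <;> cases a' <;> cases b' <;> simp [val] <;>
    first | done | linear_combination (exp := 1) (0 : k) * h1 | linear_combination -h1 |
      linear_combination -h2 | linear_combination -h1 - h2

theorem val_mul [CharP k 2] {w : k} (hw : w * w = w + 1) (a b c d : Bool) :
    val w a b * val w c d =
      val w (xor (a && c) (b && d)) (xor (xor (a && d) (b && c)) (b && d)) := by
  have h1 : (1 : k) + 1 = 0 := CharTwo.add_self_eq_zero _
  have h2 : w + w = 0 := CharTwo.add_self_eq_zero _
  cases a <;> cases b <;> cases c <;> cases d <;> simp [val] <;>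
    first | done | linear_combination hw | linear_combination hw + h2 | linear_combination hw + h1 |
      linear_combination hw + h1 + h2 | linear_combination hw + h2 + h2 | ring

theorem val_zero (w : k) : val w false false = 0 := by simp [val]

/-- shift -/
def sh (i x : ℕ) : ℕ := (x &&& mm 18 i) <<< 2 ^ i

theorem tb_sh (i : Fin 18) (x : ℕ) (B : Finset (Fin 18)) :
    tb (sh i x) B = (decide (i ∈ B) && tb x (B.erase i)) := by
  have h0 : tb (st i x) B = (tb (sh i x) B || tb ((x >>> 2 ^ (i : ℕ)) &&& mm 18 i) B) := by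
    rw [st, tb_or, sh]
  by_cases h : i ∈ B
  · rw [tb_st, if_pos h, tb_and (x >>> 2 ^ (i : ℕ)), tb_mm] at h0
    simp only [h, not_true, decide_false, Bool.and_false, Bool.or_false, decide_true,
      Bool.true_and] at h0 ⊢
    exact h0.symm
  · simp only [h, decide_false, Bool.false_and]
    rw [sh, tb, Nat.testBit_shiftLeft]
    by_cases h3 : mask B ≥ 2 ^ (i : ℕ)
    · have h4 : (mask B - 2 ^ (i : ℕ)).testBit i = true := by
        by_contra h5
        have h6 : (mask B - 2 ^ (i : ℕ)).testBit i = false := by simpa using h5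
        have h7 : mask B = 2 ^ (i : ℕ) + (mask B - 2 ^ (i : ℕ)) := by omega
        have h8 := testBit_mask B i
        rw [h7, Nat.testBit_two_pow_add_eq, h6] at h8
        simp [h] at h8
      rw [Nat.testBit_and, testBit_mm, h4]
      simp
    · simp [h3]

theorem tb_xor (x y : ℕ) (B : Finset (Fin 18)) : tb (x ^^^ y) B = xor (tb x B) (tb y B) :=
  Nat.testBit_xor _ _ _

/-- first coordinate of the product by the row coded by `c` -/
def stX (c : ℕ) : ℕ → ℕ → ℕ → ℕ
  | 0, _, _ => 0
  | n + 1, x, y => stX c n x y ^^^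
      (cond (c.testBit (2 * n)) (sh n x) 0 ^^^ cond (c.testBit (2 * n + 1)) (sh n y) 0)

/-- second coordinate -/
def stY (c : ℕ) : ℕ → ℕ → ℕ → ℕ
  | 0, _, _ => 0
  | n + 1, x, y => stY c n x y ^^^
      ((cond (c.testBit (2 * n)) (sh n y) 0 ^^^ cond (c.testBit (2 * n + 1)) (sh n x) 0) ^^^
        cond (c.testBit (2 * n + 1)) (sh n y) 0)

/-- the row coded by `c` -/
def row (w : k) (c : ℕ) (i : Fin 18) : k :=
  val w (c.testBit (2 * (i : ℕ))) (c.testBit (2 * (i : ℕ) + 1))

theorem tb_cond (a : Bool) (x : ℕ) (B : Finset (Fin 18)) : tb (cond a x 0) B = (a && tb x B) := by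
  cases a
  · simp [tb]
  · simp

theorem step_aux [CharP k 2] {w : k} (hw : w * w = w + 1) (c x y : ℕ) (F : Finset (Fin 18) → k)
    (hF : ∀ B, F B = val w (tb x B) (tb y B)) (n : ℕ) (hn : n ≤ 18) (B : Finset (Fin 18)) :
    ∑ i ∈ B.filter (fun i : Fin 18 => (i : ℕ) < n), row w c i * F (B.erase i) =
      val w (tb (stX c n x y) B) (tb (stY c n x y) B) := by
  induction n with
  | zero =>
    have : B.filter (fun i : Fin 18 => (i : ℕ) < 0) = ∅ := by
      ext j
      simp
    rw [this]
    simp [stX, stY, tb, val]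
  | succ n ih =>
    have hn' : n < 18 := by omega
    have h1 := ih (by omega)
    have hsplit : ∑ i ∈ B.filter (fun i : Fin 18 => (i : ℕ) < n + 1), row w c i * F (B.erase i) =
        (∑ i ∈ B.filter (fun i : Fin 18 => (i : ℕ) < n), row w c i * F (B.erase i)) +
          if (⟨n, hn'⟩ : Fin 18) ∈ B then row w c ⟨n, hn'⟩ * F (B.erase ⟨n, hn'⟩) else 0 := by
      split_ifs with h
      · have h2 : B.filter (fun i : Fin 18 => (i : ℕ) < n + 1) =
            insert ⟨n, hn'⟩ (B.filter (fun i : Fin 18 => (i : ℕ) < n)) := by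
          ext j
          simp only [mem_filter, mem_insert, Fin.ext_iff]
          constructor
          · rintro ⟨h3, h4⟩
            by_cases h5 : (j : ℕ) = n
            · exact Or.inl h5
            · exact Or.inr ⟨h3, by omega⟩
          · rintro (h3 | ⟨h3, h4⟩)
            · have : j = ⟨n, hn'⟩ := Fin.ext h3
              exact ⟨this ▸ h, by omega⟩
            · exact ⟨h3, by omega⟩
        rw [h2, sum_insert (by simp), add_comm]
      · have h2 : B.filter (fun i : Fin 18 => (i : ℕ) < n + 1) =
            B.filter (fun i : Fin 18 => (i : ℕ) < n) := by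
          ext j
          simp only [mem_filter]
          constructor
          · rintro ⟨h3, h4⟩
            refine ⟨h3, ?_⟩
            by_contra h5
            have : j = ⟨n, hn'⟩ := Fin.ext (by simp; omega)
            exact h (this ▸ h3)
          · rintro ⟨h3, h4⟩
            exact ⟨h3, by omega⟩
        rw [h2, add_zero]
    rw [hsplit, h1, stX, stY]
    simp only [tb_xor, tb_cond]
    have e1 : tb (sh n x) B = (decide ((⟨n, hn'⟩ : Fin 18) ∈ B) && tb x (B.erase ⟨n, hn'⟩)) :=
      tb_sh ⟨n, hn'⟩ x B
    have e2 : tb (sh n y) B = (decide ((⟨n, hn'⟩ : Fin 18) ∈ B) && tb y (B.erase ⟨n, hn'⟩)) :=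
      tb_sh ⟨n, hn'⟩ y B
    rw [e1, e2, val_xor]
    congr 1
    split_ifs with h
    · rw [row, hF, val_mul hw]
      simp [h]
    · simp [h, val]

theorem step [CharP k 2] {w : k} (hw : w * w = w + 1) (c x y : ℕ) (F : Finset (Fin 18) → k)
    (hF : ∀ B, F B = val w (tb x B) (tb y B)) (B : Finset (Fin 18)) :
    wd (row w c) F B = val w (tb (stX c 18 x y) B) (tb (stY c 18 x y) B) := by
  rw [← step_aux hw c x y F hF 18 le_rfl B, wd]
  congr 1
  ext j
  simp

theorem w1_val (w : k) (B : Finset (Fin 18)) : w1 B = val w (tb 1 B) (tb 0 B) := by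
  unfold w1
  have h0 : tb 0 B = false := by simp [tb]
  rw [h0]
  have h1 : tb 1 B = decide (B = ∅) := by
    unfold tb
    rw [Bool.eq_iff_iff, Nat.testBit_one_eq_true_iff_self_eq_zero, decide_eq_true_iff]
    constructor
    · intro h
      unfold mask at h
      rw [Finset.sum_eq_zero_iff] at h
      rw [Finset.eq_empty_iff_forall_notMem]
      intro i hi
      have := h i hi
      have h2 : 0 < 2 ^ (i : ℕ) := by positivity
      omega
    · rintro rfl
      simp [mask]
  rw [h1]
  by_cases h : B = ∅ <;> simp [h, val]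

end bits

end Pool.Agent.WNeg
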