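import Mathlib
import Pool.Agent.WNeg.Wedge
import Pool.Agent.WNeg.StrongFails

set_option autoImplicit false

/-!
# WNeg/Rep: the matroid `N` is representable over the field with four elements (owner helper94)
-/

namespace Pool.Agent.WNeg

open Finset

/-- the rows of the matrix, two bits for every entry -/
def cd : Fin 9 → ℕ := ![67651240961, 67651240196, 1342178576, 66845934912, 67649933312,
  67646799872, 67646062592, 18538823680, 5704253440]

def xa1 : ℕ := stX (cd 8) 18 1 0
def ya1 : ℕ := stY (cd 8) 18 1 0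
def xa2 : ℕ := stX (cd 7) 18 xa1 ya1
def ya2 : ℕ := stY (cd 7) 18 xa1 ya1
def xa3 : ℕ := stX (cd 6) 18 xa2 ya2
def ya3 : ℕ := stY (cd 6) 18 xa2 ya2
def xa4 : ℕ := stX (cd 5) 18 xa3 ya3
def ya4 : ℕ := stY (cd 5) 18 xa3 ya3
def xa5 : ℕ := stX (cd 4) 18 xa4 ya4
def ya5 : ℕ := stY (cd 4) 18 xa4 ya4
def xa6 : ℕ := stX (cd 3) 18 xa5 ya5
def ya6 : ℕ := stY (cd 3) 18 xa5 ya5
def xa7 : ℕ := stX (cd 2) 18 xa6 ya6
def ya7 : ℕ := stY (cd 2) 18 xa6 ya6
def xa8 : ℕ := stX (cd 1) 18 xa7 ya7
def ya8 : ℕ := stY (cd 1) 18 xa7 ya7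
def xa9 : ℕ := stX (cd 0) 18 xa8 ya8
def ya9 : ℕ := stY (cd 0) 18 xa8 ya8

/-- sets with an independent superset with one more element -/
def nm (x : ℕ) : ℕ → ℕ
  | 0 => 0
  | n + 1 => nm x n ||| ((x >>> 2 ^ n) &&& mm 18 n)

theorem tb_nm (x : ℕ) (n : ℕ) (hn : n ≤ 18) (B : Finset (Fin 18)) (h : tb (nm x n) B = true) :
    ∃ i, i ∉ B ∧ tb x (insert i B) = true := by
  induction n with
  | zero => simp [nm, tb] at h
  | succ n ih =>
    have hn' : n < 18 := by omega
    rw [nm, tb_or, tb_and, Bool.or_eq_true] at h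
    rcases h with h | h
    · exact ih (by omega) h
    · have h2 := tb_mm ⟨n, hn'⟩ B
      simp only at h2
      rw [h2, Bool.and_eq_true, decide_eq_true_iff] at h
      refine ⟨⟨n, hn'⟩, h.2, ?_⟩
      rw [← tb_shift x h.2]
      exact h.1

theorem chk1 : bsub (xa9 ||| ya9) IB = true := by decide +kernel

theorem chk2 : bsub IB ((xa9 ||| ya9) ||| nm IB 18) = true := by decide +kernel

variable {k : Type*} [Field k]

/-- the columns of the matrix -/
def vec (w : k) (i : Fin 18) : Fin 9 → k := fun j => row w (cd j) i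

/-- the list of rows -/
def rowsL (w : k) : List (Fin 18 → k) := [row w (cd 0), row w (cd 1), row w (cd 2), row w (cd 3),
  row w (cd 4), row w (cd 5), row w (cd 6), row w (cd 7), row w (cd 8)]

theorem row_mem (w : k) (j : Fin 9) : row w (cd j) ∈ rowsL w := by
  unfold rowsL
  fin_cases j <;> simp

theorem wl_val [CharP k 2] {w : k} (hw : w * w = w + 1) (B : Finset (Fin 18)) :
    wl (rowsL w) B = val w (tb xa9 B) (tb ya9 B) := by
  have h1 := step hw (cd 8) 1 0 w1 (w1_val w)
  have h2 := step hw (cd 7) xa1 ya1 _ h1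
  have h3 := step hw (cd 6) xa2 ya2 _ h2
  have h4 := step hw (cd 5) xa3 ya3 _ h3
  have h5 := step hw (cd 4) xa4 ya4 _ h4
  have h6 := step hw (cd 3) xa5 ya5 _ h5
  have h7 := step hw (cd 2) xa6 ya6 _ h6
  have h8 := step hw (cd 1) xa7 ya7 _ h7
  exact step hw (cd 0) xa8 ya8 _ h8 B

theorem val_ne_zero [CharP k 2] {w : k} (hw : w * w = w + 1) {a b : Bool}
    (h : (a || b) = true) : val w a b ≠ 0 := by
  have h1 : (1 : k) + 1 = 0 := CharTwo.add_self_eq_zero _
  have h2 : (1 : k) ≠ 0 := one_ne_zero
  cases a <;> cases b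
  · simp at h
  · intro h3
    simp only [val, Bool.false_eq_true, if_false, if_true, zero_add] at h3
    rw [h3] at hw
    simp at hw
  · intro h3
    simp [val] at h3
  · intro h3
    simp only [val, if_true] at h3
    apply h2
    linear_combination hw - (w - 2) * h3

theorem wl_ne_zero [CharP k 2] {w : k} (hw : w * w = w + 1) {B : Finset (Fin 18)}
    (hB : N.IsBase (B : Set (Fin 18))) : wl (rowsL w) B ≠ 0 := by
  rw [wl_val hw]
  apply val_ne_zero hw
  have h1 : tb IB B = true := (N_indep B).1 hB.indep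
  have h2 := bsub_tb chk2 h1
  rw [tb_or, tb_or, Bool.or_eq_true] at h2
  rcases h2 with h2 | h2
  · exact h2
  · obtain ⟨i, hi, h3⟩ := tb_nm _ _ le_rfl _ h2
    exfalso
    have h4 : N.Indep ((insert i B : Finset (Fin 18)) : Set (Fin 18)) := (N_indep _).2 h3
    have h5 := hB.eq_of_subset_indep h4 (by simp)
    have h6 : B = insert i B := by exact_mod_cast h5
    exact hi (h6 ▸ mem_insert_self i B)

theorem wl_eq_zero [CharP k 2] {w : k} (hw : w * w = w + 1) {B : Finset (Fin 18)}
    (hB : ¬ N.Indep (B : Set (Fin 18))) : wl (rowsL w) B = 0 := by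
  rw [wl_val hw]
  by_cases h : (tb xa9 B || tb ya9 B) = true
  · exfalso
    apply hB
    rw [N_indep]
    exact bsub_tb chk1 (by rw [tb_or]; exact h)
  · simp only [Bool.or_eq_true, not_or, Bool.not_eq_true] at h
    rw [h.1, h.2, val_zero]

theorem rel [CharP k 2] (w : k) (B : Finset (Fin 18)) :
    ∑ i ∈ B, wl (rowsL w) (B.erase i) • vec w i = 0 := by
  funext j
  have h := congrFun (wd_wl (row_mem w j)) B
  unfold wd at h
  simp only [Finset.sum_apply, Pi.smul_apply, smul_eq_mul, Pi.zero_apply, vec] at h ⊢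
  rw [← h]
  exact Finset.sum_congr rfl fun i _ => mul_comm _ _

theorem mem_span [CharP k 2] {w : k} (hw : w * w = w + 1) {B : Finset (Fin 18)}
    (hB : N.IsBase (B : Set (Fin 18))) (x : Fin 18) :
    vec w x ∈ Submodule.span k (vec w '' (B : Set (Fin 18))) := by
  by_cases hx : x ∈ B
  · exact Submodule.subset_span ⟨x, hx, rfl⟩
  · have h := rel w (insert x B)
    rw [Finset.sum_insert hx, Finset.erase_insert hx] at h
    have h2 := wl_ne_zero hw hB
    have h3 : vec w x = (wl (rowsL w) B)⁻¹ •
        (-∑ i ∈ B, wl (rowsL w) ((insert x B).erase i) • vec w i) := by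
      rw [← eq_neg_of_add_eq_zero_left h, smul_smul, inv_mul_cancel₀ h2, one_smul]
    rw [h3]
    refine Submodule.smul_mem _ _ (Submodule.neg_mem _ (Submodule.sum_mem _ fun i hi => ?_))
    exact Submodule.smul_mem _ _ (Submodule.subset_span ⟨i, hi, rfl⟩)

/-- the columns which are unit vectors -/
def un : Fin 9 → Fin 18 := ![0, 1, 2, 3, 6, 7, 8, 12, 13]

theorem un_bits : ∀ j j' : Fin 9, (cd j').testBit (2 * (un j : ℕ)) = decide (j' = j) ∧
    (cd j').testBit (2 * (un j : ℕ) + 1) = false := by decide +kernel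

theorem vec_un (w : k) (j : Fin 9) : vec w (un j) = Pi.single j 1 := by
  funext j'
  unfold vec row
  rw [(un_bits j j').1, (un_bits j j').2]
  by_cases h : j' = j
  · subst h
    simp [val]
  · simp [val, h]

theorem span_top [CharP k 2] {w : k} (hw : w * w = w + 1) {B : Finset (Fin 18)}
    (hB : N.IsBase (B : Set (Fin 18))) :
    (⊤ : Submodule k (Fin 9 → k)) ≤ Submodule.span k (Set.range fun x : B => vec w x) := by
  have h1 : (Set.range fun x : B => vec w x) = vec w '' (B : Set (Fin 18)) := by
    ext y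
    simp
  rw [h1]
  intro y _
  have h2 : y = ∑ j, y j • vec w (un j) := by
    simp only [vec_un]
    funext j'
    simp [Finset.sum_apply, Pi.single_apply]
  rw [h2]
  exact Submodule.sum_mem _ fun j _ => Submodule.smul_mem _ _ (mem_span hw hB _)

theorem li_base [CharP k 2] {w : k} (hw : w * w = w + 1) {B : Finset (Fin 18)}
    (hB : N.IsBase (B : Set (Fin 18))) : LinearIndepOn k (vec w) (B : Set (Fin 18)) := by
  have h1 := wl_card (wl_ne_zero hw hB)
  have h2 := linearIndependent_of_top_le_span_of_card_eq_finrank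
    (b := fun x : B => vec w x) (span_top hw hB) (by
      rw [Module.finrank_fin_fun, Fintype.card_coe, h1]
      rfl)
  exact h2

/-- `N` is represented by the columns of the matrix. -/
theorem N_rep [CharP k 2] {w : k} (hw : w * w = w + 1) (I : Set (Fin 18)) :
    N.Indep I ↔ LinearIndepOn k (vec w) I := by
  constructor
  · intro hI
    obtain ⟨B, hB, hIB⟩ := hI.exists_isBase_superset
    have hBf : B = ((Set.toFinite B).toFinset : Set (Fin 18)) := by simp
    rw [hBf] at hB hIB
    exact (li_base hw hB).mono hIB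
  · intro hI
    by_contra hn
    have hd : N.Dep I := by
      rw [Matroid.dep_iff]
      refine ⟨hn, ?_⟩
      have : N.E = Set.univ := rfl
      rw [this]
      exact Set.subset_univ _
    obtain ⟨C, hCI, hC⟩ := hd.exists_isCircuit_subset
    obtain ⟨x, hx⟩ := hC.nonempty
    obtain ⟨B, hB, hCB⟩ := (hC.sdiff_singleton_indep hx).exists_isBase_superset
    have hBf : B = ((Set.toFinite B).toFinset : Set (Fin 18)) := by simp
    set B' := (Set.toFinite B).toFinset with hB'
    rw [hBf] at hB hCB
    set C' := (Set.toFinite C).toFinset with hC'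
    have hCf : C = (C' : Set (Fin 18)) := by simp [hC']
    have hxC : x ∈ C' := by
      have : x ∈ (C' : Set (Fin 18)) := hCf ▸ hx
      exact_mod_cast this
    have hsub : C' ⊆ insert x B' := by
      intro y hy
      by_cases hyx : y = x
      · exact hyx ▸ mem_insert_self _ _
      · refine mem_insert_of_mem ?_
        have hyC : y ∈ C := by rw [hCf]; exact_mod_cast hy
        exact_mod_cast hCB ⟨hyC, hyx⟩
    have hxB : x ∉ B' := by
      intro hxB
      have h1 : C ⊆ (B' : Set (Fin 18)) := by
        rw [hCf]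
        intro y hy
        have := hsub (by exact_mod_cast hy)
        rw [mem_insert] at this
        rcases this with rfl | h
        · exact_mod_cast hxB
        · exact_mod_cast h
      exact hC.not_indep (hB.indep.subset h1)
    have hr := rel w (insert x B')
    rw [← Finset.sum_subset hsub] at hr
    · have hli := hI.mono hCI
      rw [hCf, linearIndepOn_finset_iff] at hli
      have h0 := hli _ hr x hxC
      rw [erase_insert hxB] at h0
      exact wl_ne_zero hw hB h0
    · intro i hi hiC
      rw [wl_eq_zero hw, zero_smul]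
      intro hind
      apply hC.not_indep
      refine hind.subset ?_
      rw [hCf]
      intro y hy
      have hy' : y ∈ C' := by exact_mod_cast hy
      have : y ∈ (insert x B').erase i :=
        mem_erase.2 ⟨fun h => hiC (h ▸ hy'), hsub hy'⟩
      exact_mod_cast this

end Pool.Agent.WNeg
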